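import Pool.Agent.W326.AF.Heat
import Pool.Agent.W169.AF.Stm2

set_option autoImplicit false

/-!
Project AF: the heat flow of the completed L-functions of all primitive characters, wide version
(the whole critical strip). Adapted from Pool.Agent.W326.AF.Heat (helper326).
-/

namespace Pool.Agent.W857.AF

open Finset Filter Topology MeasureTheory
open Pool.Agent.H24R2.DZ (NN ra)
open Pool.Agent.W169.AF
open Pool.Agent.W326.AF (cnt_le_sq cnt_union gamma_lower lc_lower heat_cv grow_norm cnt_mono)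

noncomputable section

/-- `(q, χ)` is good at the scales `2^j a` -/
def GoodHw (η : ℝ) (Q : ℕ) (a t0 : ℝ) (q : ℕ) (χ : DirichletCharacter ℂ q) : Prop :=
  ∀ j : ℕ, 10 * (2 ^ j * a) ≤ Real.log Q → NNx η Q (2 ^ j * a) t0 q χ

theorem goodHw_bd {η C2 c2 a0 Q0 : ℝ} (hC2 : 0 < C2) (hc2 : 0 < c2) (ha0 : 1 ≤ a0)
    (h2 : ∀ (Q : ℕ) (a t0 : ℝ), Q0 ≤ Q → a0 ≤ a → a ≤ Real.log Q / 10 → |t0| ≤ (Q : ℝ) ^ c2 →
      cnt Q (fun q χ => ¬ NNx η Q a t0 q χ) ≤ C2 * (Q : ℝ) ^ 2 * Real.exp (-(c2 * a)))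
    (Q : ℕ) (hQ : Q0 ≤ Q) (a t0 : ℝ) (ha : a0 ≤ a) (ht0 : |t0| ≤ (Q : ℝ) ^ c2) :
    cnt Q (fun q χ => ¬ GoodHw η Q a t0 q χ) ≤
      C2 * (1 - Real.exp (-c2))⁻¹ * (Q : ℝ) ^ 2 * Real.exp (-(c2 * a)) := by
  classical
  have hr : Real.exp (-c2) < 1 := by
    rw [Real.exp_lt_one_iff]; linarith
  have hr0 : 0 ≤ Real.exp (-c2) := (Real.exp_pos _).le
  set S := (1 - Real.exp (-c2))⁻¹ with hS
  have hS0 : 0 < S := inv_pos.2 (by linarith)
  have ha1 : 1 ≤ a := ha0.trans ha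
  set L := Real.log Q with hL
  have hpow : ∀ j : ℕ, (j : ℝ) + 1 ≤ 2 ^ j := by
    intro j
    have := Nat.lt_two_pow_self (n := j)
    exact_mod_cast this
  set T : Finset ℕ := (Finset.range (⌊L⌋₊ + 1)).filter
    (fun j => 10 * (2 ^ j * a) ≤ L) with hT
  have hsub : ∀ q ∈ Icc 2 Q, ∀ χ ∈ PC q, ¬ GoodHw η Q a t0 q χ →
      ∃ j ∈ T, ¬ NNx η Q (2 ^ j * a) t0 q χ := by
    intro q _ χ _ hd
    unfold GoodHw at hd
    push Not at hd
    obtain ⟨j, hj1, hj2⟩ := hd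
    refine ⟨j, ?_, hj2⟩
    rw [hT, Finset.mem_filter, Finset.mem_range]
    refine ⟨?_, hj1⟩
    have h0 := hpow j
    have h1 : (j : ℝ) ≤ L := by nlinarith
    have : j ≤ ⌊L⌋₊ := Nat.le_floor h1
    omega
  have hNj : ∀ j ∈ T, cnt Q (fun q χ => ¬ NNx η Q (2 ^ j * a) t0 q χ) ≤
      C2 * (Q : ℝ) ^ 2 * Real.exp (-(c2 * a)) * Real.exp (-c2) ^ j := by
    intro j hj
    rw [hT, Finset.mem_filter] at hj
    have h0 := hpow j
    have hj0 : (0 : ℝ) ≤ j := Nat.cast_nonneg j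
    refine (h2 Q (2 ^ j * a) t0 hQ (by nlinarith) (by linarith [hj.2]) ht0).trans ?_
    rw [← Real.exp_nat_mul, mul_assoc (C2 * (Q : ℝ) ^ 2), ← Real.exp_add]
    apply mul_le_mul_of_nonneg_left _ (by positivity)
    apply Real.exp_le_exp.2
    have h3 : (j : ℝ) + a ≤ 2 ^ j * a := by nlinarith
    nlinarith
  calc cnt Q (fun q χ => ¬ GoodHw η Q a t0 q χ)
      ≤ ∑ j ∈ T, cnt Q (fun q χ => ¬ NNx η Q (2 ^ j * a) t0 q χ) :=
        cnt_union Q T _ (fun j q χ => ¬ NNx η Q (2 ^ j * a) t0 q χ) hsub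
    _ ≤ ∑ j ∈ T, C2 * (Q : ℝ) ^ 2 * Real.exp (-(c2 * a)) * Real.exp (-c2) ^ j :=
        Finset.sum_le_sum hNj
    _ ≤ C2 * (Q : ℝ) ^ 2 * Real.exp (-(c2 * a)) * S := by
        rw [← Finset.mul_sum]
        apply mul_le_mul_of_nonneg_left _ (by positivity)
        rw [hS, ← tsum_geometric_of_lt_one hr0 hr]
        exact (summable_geometric_of_lt_one hr0 hr).sum_le_tsum T (fun n _ => pow_nonneg hr0 n)
    _ = C2 * S * (Q : ℝ) ^ 2 * Real.exp (-(c2 * a)) := by ring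

theorem good_heatw {C C1 B δ η a0 c0 : ℝ} (hB : 0 ≤ B) (hC1 : 0 < C1) (hδ0 : 0 < δ)
    (hδ : ∀ s : ℂ, 1 / 2 ≤ s.re → s.re ≤ 2 → |s.im| ≤ B →
      δ ≤ ‖Complex.Gammaℝ s‖ ∧ δ ≤ ‖Complex.Gammaℝ (s + 1)‖)
    (hGRO : ∀ q : ℕ, 2 ≤ q → ∀ χ ∈ PC q, ∀ s : ℂ,
      ‖LC q χ s‖ ≤ Real.exp (C1 * (1 + ‖s‖) * (Real.log q + Real.log (2 + ‖s‖))))
    (hSYM : S_SYM) (ha0 : 1 ≤ a0)
    (hCa : 20 * (C1 * (2 + B) * (1 + Real.log (3 + B))) ≤ C) (hCb : 1 + |Real.log δ| ≤ C)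
    (hLOH : ∀ (a L : ℝ) (J : ℕ) (G : ℂ → ℂ), a0 ≤ a → a ≤ c0 * L → L / 400 ≤ 2 ^ J * a →
      2 ^ J * a ≤ L / 200 →
      Differentiable ℂ G → (∀ z : ℂ, G (-((starRingEnd ℂ) z)) = (starRingEnd ℂ) (G z)) →
      (∀ j : ℕ, j ≤ J → NN (2 ^ j * a) η (fun z => G (2 * (2 ^ j * a) * z))) →
      Real.exp (-(C * L)) ≤ ‖G (2 * (2 ^ J * a))‖ →
      (∀ z : ℂ, ‖G z‖ ≤ Real.exp (C * (L + ‖z‖) * (1 + Real.log (2 + ‖z‖ / L)))) →
      ∀ z : ℂ, |z.re| ≤ 10 * 2 ^ J * a → |z.im| ≤ a →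
        (∫ u : ℝ, ((Real.exp (-(u ^ 2 / (8 * a))) : ℝ) : ℂ) * G (z + (u : ℂ))) = 0 →
        z.re = 0 ∧ deriv (fun z => ∫ u : ℝ, ((Real.exp (-(u ^ 2 / (8 * a))) : ℝ) : ℂ) *
          G (z + (u : ℂ))) z ≠ 0)
    {c t t0 : ℝ} {Q : ℕ} (hL1 : 1 ≤ Real.log Q) (hc1 : c ≤ 1 / 400) (hc2 : c ≤ c0)
    (ht : 0 < t) (htQ : t * Real.log Q ≤ c) (ht0 : |t0| ≤ B)
    (ha : a0 ≤ t * Real.log Q ^ 2 / 2) {q : ℕ} (hq2 : 2 ≤ q) (hqQ : q ≤ Q)
    (χ : DirichletCharacter ℂ q) (hχ : χ ∈ PC q)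
    (hg : GoodHw η Q (t * Real.log Q ^ 2 / 2) t0 q χ) : HeatGoodw (1 / 400) t Q t0 q χ := by
  classical
  set L := Real.log Q with hL
  have hL0 : 0 < L := by linarith
  have hLc : (L : ℂ) ≠ 0 := by exact_mod_cast hL0.ne'
  obtain ⟨hdC, -, hω⟩ := hSYM q hq2 χ hχ
  obtain ⟨ω, hω1, hωS⟩ := hω t0
  have hω0 : ω ≠ 0 := by
    intro h
    rw [h, norm_zero] at hω1
    exact absurd hω1 (by norm_num)
  set a := t * L ^ 2 / 2 with haa
  have ha1 : 1 ≤ a := ha0.trans ha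
  have hac : a ≤ c / 2 * L := by
    have e : a = (t * L) * L / 2 := by rw [haa]; ring
    rw [e]
    nlinarith
  -- the scale
  obtain ⟨J, hJ1, hJ2⟩ : ∃ J : ℕ, 10 * (2 ^ J * a) ≤ L ∧ L < 10 * (2 ^ (J + 1) * a) := by
    have hex : ∃ k : ℕ, L < 10 * (2 ^ k * a) := by
      obtain ⟨k, hk⟩ := pow_unbounded_of_one_lt L (show (1 : ℝ) < 2 by norm_num)
      refine ⟨k, ?_⟩
      have : (0 : ℝ) < 2 ^ k := by positivity
      nlinarith
    have hk := Nat.find_spec hex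
    have hk0 : Nat.find hex ≠ 0 := by
      intro h0
      rw [h0] at hk
      simp only [pow_zero, one_mul] at hk
      nlinarith
    obtain ⟨J, hJ⟩ := Nat.exists_eq_succ_of_ne_zero hk0
    refine ⟨J, ?_, ?_⟩
    · have := Nat.find_min hex (m := J) (by omega)
      linarith
    · rw [hJ] at hk
      exact hk
  set w0 : ℂ := 1 / 2 + Complex.I * t0 with hw0
  set G : ℂ → ℂ := fun z => ω * LC q χ (w0 + z / (L : ℂ)) with hG
  have hGd : Differentiable ℂ G := by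
    rw [hG]
    fun_prop
  have hJb : L / 20 ≤ 2 ^ J * a := by
    rw [pow_succ] at hJ2
    linarith
  have hra : ∀ b : ℝ, ((ra Q b : ℝ) : ℂ) = 2 * (b : ℂ) / (L : ℂ) := by
    intro b
    unfold ra
    rw [← hL]
    push_cast
    field_simp
  have hlogq : Real.log q ≤ L := by
    rw [hL]
    apply Real.log_le_log
    · exact_mod_cast (by omega : 0 < q)
    · exact_mod_cast hqQ
  have hQpos : (0 : ℝ) < Q := by
    have : 0 < Q := by omega
    exact_mod_cast this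
  have key := hLOH a (20 * L) J G ha (by nlinarith) (by linarith) (by linarith) hGd (by
      intro z
      have e := hωS (z / (L : ℂ))
      rw [map_div₀, Complex.conj_ofReal] at e
      rw [hG]
      simp only
      rw [neg_div, ← sub_eq_add_neg]
      exact e) (by
      intro j hj
      have hp : (2 : ℝ) ^ j ≤ 2 ^ J := pow_le_pow_right₀ (by norm_num) hj
      have hq := (hg j (by nlinarith)).1 ω hω1 hωS
      have e : (fun z => G (2 * (2 ^ j * a) * z)) = fun z => ω * LC q χ (1 / 2 + Complex.I * t0 +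
          ra Q (2 ^ j * a) * z) := by
        funext z
        rw [hG]
        simp only
        rw [hra]
        push_cast
        congr 3
        ring
      rw [e]
      exact hq) (by
      have hq := (hg J hJ1).2
      have hx0 : 0 ≤ ra Q (2 ^ J * a) := by
        unfold ra
        positivity
      have hx1 : ra Q (2 ^ J * a) ≤ 1 := by
        unfold ra
        rw [div_le_one (by positivity)]
        linarith
      have hl := lc_lower hδ hq2 χ (1 / 2 + Complex.I * t0 + ra Q (2 ^ J * a))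
        (by simp; linarith) (by simp; linarith) (by simpa using ht0)
      rw [hG]
      simp only
      rw [norm_mul, hω1, one_mul]
      have e : w0 + 2 * (2 ^ J * (a : ℂ)) / (L : ℂ) =
          1 / 2 + Complex.I * t0 + ra Q (2 ^ J * a) := by
        rw [hra, hw0]
        push_cast
        ring
      rw [e]
      refine le_trans ?_ hl
      refine le_trans ?_ (mul_le_mul_of_nonneg_left hq hδ0.le)
      have e1 : (Q : ℝ)⁻¹ = Real.exp (-L) := by
        rw [Real.exp_neg, hL, Real.exp_log hQpos]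
      rw [e1]
      conv_rhs => rw [← Real.exp_log hδ0]
      rw [← Real.exp_add]
      apply Real.exp_le_exp.2
      have h5 := neg_abs_le (Real.log δ)
      have h6 := abs_nonneg (Real.log δ)
      have h7 : (1 + |Real.log δ|) * L ≤ C * L := mul_le_mul_of_nonneg_right hCb hL0.le
      nlinarith) (by
      intro z
      rw [hG]
      simp only
      rw [norm_mul, hω1, one_mul]
      refine (grow_norm hC1 hB (hGRO q hq2 χ hχ) hL1 hlogq ht0 z).trans ?_
      apply Real.exp_le_exp.2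
      have hlB : 0 ≤ Real.log (3 + B) := Real.log_nonneg (by linarith)
      have hK0 : 0 ≤ C1 * (2 + B) * (1 + Real.log (3 + B)) := by positivity
      set u : ℝ := ‖z‖ / (20 * L) with hu
      have hu0 : 0 ≤ u := by positivity
      have e1 : ‖z‖ / L = 20 * u := by
        rw [hu]
        field_simp
      have h6 : 0 ≤ Real.log (2 + u) := Real.log_nonneg (by linarith)
      have h7 : Real.log (2 + ‖z‖ / L) ≤ 19 + Real.log (2 + u) := by
        rw [e1]
        have h8 : Real.log (2 + 20 * u) ≤ Real.log (20 * (2 + u)) :=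
          Real.log_le_log (by positivity) (by linarith)
        rw [Real.log_mul (by norm_num) (by positivity)] at h8
        have h9 := Real.log_le_sub_one_of_pos (show (0 : ℝ) < 20 by norm_num)
        linarith
      have h10 : 0 ≤ 1 + Real.log (2 + ‖z‖ / L) := by
        have : 0 ≤ ‖z‖ / L := by positivity
        have := Real.log_nonneg (show 1 ≤ 2 + ‖z‖ / L by linarith)
        linarith
      have h11 : 1 + Real.log (2 + ‖z‖ / L) ≤ 20 * (1 + Real.log (2 + u)) := by linarith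
      have h12 : L + ‖z‖ ≤ 20 * L + ‖z‖ := by linarith
      have h13 : 0 ≤ 20 * L + ‖z‖ := by positivity
      calc C1 * (2 + B) * (1 + Real.log (3 + B)) * (L + ‖z‖) * (1 + Real.log (2 + ‖z‖ / L))
          ≤ C1 * (2 + B) * (1 + Real.log (3 + B)) * (20 * L + ‖z‖) *
            (20 * (1 + Real.log (2 + u))) :=
            mul_le_mul (mul_le_mul_of_nonneg_left h12 hK0) h11 h10 (by positivity)
        _ = 20 * (C1 * (2 + B) * (1 + Real.log (3 + B))) * (20 * L + ‖z‖) *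
            (1 + Real.log (2 + u)) := by ring
        _ ≤ C * (20 * L + ‖z‖) * (1 + Real.log (2 + u)) :=
            mul_le_mul_of_nonneg_right (mul_le_mul_of_nonneg_right hCa h13) (by positivity))
  have hcv : ∀ z : ℂ, (∫ u : ℝ, ((Real.exp (-(u ^ 2 / (8 * a))) : ℝ) : ℂ) * G (z + (u : ℂ))) =
      ω * (L : ℂ) * HFl t (LC q χ) (w0 + (L : ℂ)⁻¹ * z) := fun z => heat_cv hL0 w0 ω z
  intro s hs1 hs2 hs3
  have hz : w0 + (L : ℂ)⁻¹ * ((L : ℂ) * (s - w0)) = s := by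
    rw [← mul_assoc, inv_mul_cancel₀ hLc, one_mul]
    ring
  have hw0r : w0.re = 1 / 2 := by
    rw [hw0]
    simp
  have hw0i : w0.im = t0 := by
    rw [hw0]
    simp
  have hre : ((L : ℂ) * (s - w0)).re = L * (s.re - 1 / 2) := by
    rw [Complex.re_ofReal_mul, Complex.sub_re, hw0r]
  have him : ((L : ℂ) * (s - w0)).im = L * (s.im - t0) := by
    rw [Complex.im_ofReal_mul, Complex.sub_im, hw0i]
  have hb1 : |((L : ℂ) * (s - w0)).re| ≤ 10 * 2 ^ J * a := by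
    rw [hre, abs_mul, abs_of_pos hL0]
    have : L * |s.re - 1 / 2| ≤ L * (1 / 2) := mul_le_mul_of_nonneg_left hs1 hL0.le
    linarith
  have hb2 : |((L : ℂ) * (s - w0)).im| ≤ a := by
    rw [him, abs_mul, abs_of_pos hL0, haa]
    have h5 : L * |s.im - t0| ≤ L * (1 / 400 * t * L) := mul_le_mul_of_nonneg_left hs2 hL0.le
    have h6 : 0 ≤ t * L ^ 2 := by positivity
    nlinarith
  obtain ⟨h8, h9⟩ := key ((L : ℂ) * (s - w0)) hb1 hb2 (by rw [hcv, hz, hs3, mul_zero])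
  constructor
  · rw [hre] at h8
    rcases mul_eq_zero.1 h8 with h | h
    · exact absurd h hL0.ne'
    · linarith
  · intro h0
    apply h9
    have e1 : (fun z => ∫ u : ℝ, ((Real.exp (-(u ^ 2 / (8 * a))) : ℝ) : ℂ) * G (z + (u : ℂ))) =
        fun z => (ω * (L : ℂ)) * (fun w => HFl t (LC q χ) (w0 + w)) ((L : ℂ)⁻¹ * z) :=
      funext hcv
    have e2 := deriv_comp_mul_left (L : ℂ)⁻¹ (fun w => HFl t (LC q χ) (w0 + w))
      ((L : ℂ) * (s - w0))
    rw [e1, deriv_const_mul_field, e2, deriv_comp_const_add, hz, h0, smul_zero, mul_zero]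

theorem heatGoodw_mono {c c' t t0 : ℝ} {Q q : ℕ} (ht : 0 < t) (hc : c ≤ c')
    {χ : DirichletCharacter ℂ q} (h : HeatGoodw c' t Q t0 q χ) : HeatGoodw c t Q t0 q χ := by
  have hlog : 0 ≤ Real.log Q := Real.log_natCast_nonneg Q
  refine fun s hs1 hs2 => h s hs1 (hs2.trans ?_)
  apply mul_le_mul_of_nonneg_right _ hlog
  exact mul_le_mul_of_nonneg_right hc ht.le

theorem heatw (hNQ : S_NQw) (hLOH : S_LOH) (hGRO : S_GRO) (hSYM : S_SYM) : S_HEATw := by
  intro B hB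
  obtain ⟨C1, hC1, hGRO⟩ := hGRO
  obtain ⟨δ, hδ0, hδ⟩ := gamma_lower B
  set CC := 20 * (C1 * (2 + B) * (1 + Real.log (3 + B))) + (1 + |Real.log δ|) with hCC
  have hlogB : 0 ≤ Real.log (3 + B) := Real.log_nonneg (by linarith)
  have hCC1 : 0 < C1 * (2 + B) * (1 + Real.log (3 + B)) := by positivity
  have hCC2 : 0 < 1 + |Real.log δ| := by positivity
  obtain ⟨η, a0, c0, hη, ha0, hc0, hLOH⟩ := hLOH CC (by positivity)
  obtain ⟨C2, c2, a2, Q2, hC2, hc2, hc2', ha2, hQ2, h2⟩ := hNQ η hη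
  -- large Q
  obtain ⟨Q3, hQ3⟩ : ∃ Q3 : ℕ, ∀ Q : ℕ, Q3 ≤ Q → B ≤ (Q : ℝ) ^ c2 := by
    have h1 : Tendsto (fun n : ℕ => (n : ℝ) ^ c2) atTop atTop :=
      (tendsto_rpow_atTop hc2).comp tendsto_natCast_atTop_atTop
    obtain ⟨Q3, h⟩ := (h1.eventually (eventually_ge_atTop B)).exists_forall_of_atTop
    exact ⟨Q3, h⟩
  obtain ⟨Q4, hQ4⟩ : ∃ Q4 : ℕ, ∀ Q : ℕ, Q4 ≤ Q → 1 ≤ Real.log Q := by
    have h1 : Tendsto (fun n : ℕ => Real.log (n : ℝ)) atTop atTop :=
      Real.tendsto_log_atTop.comp tendsto_natCast_atTop_atTop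
    obtain ⟨Q4, h⟩ := (h1.eventually (eventually_ge_atTop 1)).exists_forall_of_atTop
    exact ⟨Q4, h⟩
  set Q5 : ℕ := max (max Q3 Q4) (max ⌈Q2⌉₊ 2) with hQ5
  set c := min (c2 / 2) (min (1 / 400) c0) with hc
  have hcp : 0 < c := lt_min (by positivity) (lt_min (by norm_num) hc0)
  have hca : c ≤ c2 / 2 := min_le_left _ _
  have hcb : c ≤ 1 / 400 := (min_le_right _ _).trans (min_le_left _ _)
  have hcc : c ≤ c0 := (min_le_right _ _).trans (min_le_right _ _)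
  have hr : Real.exp (-c2) < 1 := by
    rw [Real.exp_lt_one_iff]; linarith
  set S := (1 - Real.exp (-c2))⁻¹ with hS
  have hS0 : 0 < S := inv_pos.2 (by linarith)
  set K : ℝ := 2 * max a0 a2 + Real.log Q5 with hK
  refine ⟨C2 * S + Real.exp (c * K), c, by positivity, hcp, ?_⟩
  intro Q t t0 hQ ht htQ ht0
  have hlogQ0 : 0 ≤ Real.log Q := Real.log_natCast_nonneg Q
  have hexp := Real.exp_pos (-(c * t * Real.log Q ^ 2))
  -- the trivial case
  by_cases htriv : t * Real.log Q ^ 2 ≤ K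
  · refine (cnt_le_sq Q _).trans ?_
    have h5 : 1 ≤ Real.exp (c * K) * Real.exp (-(c * t * Real.log Q ^ 2)) := by
      rw [← Real.exp_add]
      apply Real.one_le_exp
      have := mul_le_mul_of_nonneg_left htriv hcp.le
      linarith
    have h6 : 0 ≤ (Q : ℝ) ^ 2 := by positivity
    have h7 : 0 ≤ C2 * S * (Q : ℝ) ^ 2 * Real.exp (-(c * t * Real.log Q ^ 2)) := by positivity
    have h8 := mul_le_mul_of_nonneg_left h5 h6
    nlinarith
  push Not at htriv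
  have hlogQ5 : 0 ≤ Real.log Q5 := Real.log_natCast_nonneg Q5
  have hmaxa : a0 ≤ max a0 a2 := le_max_left _ _
  have hmaxb : a2 ≤ max a0 a2 := le_max_right _ _
  have hQbig : Q5 ≤ Q := by
    by_contra hlt
    push Not at hlt
    have h5 : Real.log Q ≤ Real.log Q5 := by
      apply Real.log_le_log
      · exact_mod_cast (by omega : 0 < Q)
      · exact_mod_cast hlt.le
    have h6 : t * Real.log Q ^ 2 ≤ Real.log Q := by
      have e : t * Real.log Q ^ 2 = (t * Real.log Q) * Real.log Q := by ring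
      rw [e]
      have : t * Real.log Q ≤ 1 := by linarith
      nlinarith
    linarith
  have hQ3' : Q3 ≤ Q := (le_max_left _ _).trans ((le_max_left _ _).trans hQbig)
  have hQ4' : Q4 ≤ Q := (le_max_right _ _).trans ((le_max_left _ _).trans hQbig)
  have hQ2' : Q2 ≤ Q := by
    have h5 : ⌈Q2⌉₊ ≤ Q := (le_max_left _ _).trans ((le_max_right _ _).trans hQbig)
    exact (Nat.le_ceil Q2).trans (by exact_mod_cast h5)
  have hL1 := hQ4 Q hQ4'
  have ht0' : |t0| ≤ (Q : ℝ) ^ c2 := ht0.trans (hQ3 Q hQ3')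
  have haa : a0 ≤ t * Real.log Q ^ 2 / 2 := by linarith
  have hab : a2 ≤ t * Real.log Q ^ 2 / 2 := by linarith
  have hbd := goodHw_bd (η := η) hC2 hc2 ha2 h2 Q hQ2' (t * Real.log Q ^ 2 / 2) t0 hab ht0'
  have hle : cnt Q (fun q χ => ¬ HeatGoodw c t Q t0 q χ) ≤
      cnt Q (fun q χ => ¬ GoodHw η Q (t * Real.log Q ^ 2 / 2) t0 q χ) := by
    apply cnt_mono
    intro q hq χ hχ hbad hgood
    rw [Finset.mem_Icc] at hq
    apply hbad
    apply heatGoodw_mono ht hcb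
    exact good_heatw (c := c) hB hC1 hδ0 hδ hGRO hSYM ha0 (by rw [hCC]; linarith)
      (by rw [hCC]; linarith) hLOH hL1 hcb hcc ht htQ ht0 haa hq.1 hq.2 χ hχ hgood
  refine hle.trans (hbd.trans ?_)
  have h5 : Real.exp (-(c2 * (t * Real.log Q ^ 2 / 2))) ≤
      Real.exp (-(c * t * Real.log Q ^ 2)) := by
    apply Real.exp_le_exp.2
    have h6 : 0 ≤ t * Real.log Q ^ 2 := by positivity
    nlinarith
  have h7 : 0 ≤ Real.exp (c * K) * (Q : ℝ) ^ 2 * Real.exp (-(c * t * Real.log Q ^ 2)) := by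
    positivity
  have h8 := mul_le_mul_of_nonneg_left h5 (show 0 ≤ C2 * S * (Q : ℝ) ^ 2 by positivity)
  linarith

end

end Pool.Agent.W857.AF
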